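import Pool.Agent.Helper1.RK.StF

set_option autoImplicit false

namespace Pool.Agent.Helper5.RK

open Pool.Agent.Helper1.RK Polynomial

section one

variable {k : Type} [Field k] {I : Type}

/-- polynomials in one variable among the polynomials in many variables -/
private noncomputable def emb (i : I) : k[X] →+* RF k I :=
  (algebraMap (MvPolynomial I k) (RF k I)).comp
    (Polynomial.aeval (R := k) (MvPolynomial.X i : MvPolynomial I k) : k[X] →ₐ[k] MvPolynomial I k).toRingHom

private theorem emb_inj (i : I) : Function.Injective (emb (k := k) i) := by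
  have h1 : Function.Injective (Polynomial.aeval (R := k) (MvPolynomial.X i : MvPolynomial I k)) := by
    have h2 : ∀ P : k[X], MvPolynomial.aeval (fun _ : I => (Polynomial.X : k[X]))
        (Polynomial.aeval (R := k) (MvPolynomial.X i : MvPolynomial I k) P) = P := by
      intro P
      rw [← Polynomial.aeval_algHom_apply, MvPolynomial.aeval_X, Polynomial.aeval_X_left_apply]
    intro P Q h
    rw [← h2 P, h, h2 Q]
  exact (IsFractionRing.injective (MvPolynomial I k) (RF k I)).comp h1

/-- rational functions in one variable among the rational functions in many variables -/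
private noncomputable def io (i : I) : RatFunc k →+* RF k I :=
  IsFractionRing.lift (A := k[X]) (emb_inj i)

private theorem io_poly (i : I) (P : k[X]) : io (k := k) i (algebraMap k[X] (RatFunc k) P) =
    algebraMap (MvPolynomial I k) (RF k I) (Polynomial.aeval (MvPolynomial.X i) P) :=
  IsFractionRing.lift_algebraMap (emb_inj i) P

private theorem io_X (i : I) : io (k := k) i RatFunc.X = rv k i := by
  rw [← RatFunc.algebraMap_X, io_poly, Polynomial.aeval_X]
  rfl

private theorem io_C (i : I) (a : k) : io i (RatFunc.C a) = rc I a := by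
  rw [← RatFunc.algebraMap_C, io_poly, Polynomial.aeval_C]
  rfl

private theorem io_inj (i : I) : Function.Injective (io (k := k) i) := (io i).injective

end one

private theorem pd_poly {k : Type} [Field k] {I K : Type} [Field K] [Algebra k K] {X : I → K}
    {pd : I → Derivation ℤ K K} {deg : I → K → ℤ} {lc : I → K → K}
    (ψ : FractionRing (MvPolynomial I k) ≃+* K)
    (hX : ∀ i, ψ (algebraMap (MvPolynomial I k) _ (MvPolynomial.X i)) = X i)
    (hC : ∀ c, ψ (algebraMap (MvPolynomial I k) _ (MvPolynomial.C c)) = algebraMap k K c)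
    (hVF : VF k K I X pd deg lc) (y : I) (P : MvPolynomial I k) :
    pd y (ψ (algebraMap _ _ P)) = ψ (algebraMap _ _ (MvPolynomial.pderiv y P)) := by
  induction P using MvPolynomial.induction_on with
  | C a => rw [hC, hVF.pd_const, MvPolynomial.pderiv_C, map_zero, map_zero]
  | add p q hp hq => rw [map_add, map_add, map_add, map_add, map_add, map_add, hp, hq]
  | mul_X p n hp =>
    have e1 : pd y (X n) = ψ (algebraMap _ _ (MvPolynomial.pderiv y (MvPolynomial.X n : MvPolynomial I k))) := by
      by_cases hn : y = n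
      · subst hn
        rw [hVF.pd_self, MvPolynomial.pderiv_X_self, map_one, map_one]
      · rw [hVF.pd_ne y n hn, MvPolynomial.pderiv_X_of_ne (fun h => hn h.symm), map_zero, map_zero]
    rw [map_mul, map_mul, Derivation.leibniz, Derivation.leibniz, map_add, map_add, smul_eq_mul, smul_eq_mul,
      smul_eq_mul, smul_eq_mul, map_mul, map_mul, map_mul, map_mul, hX, hp, e1]

private theorem pull {k : Type} [Field k] [CharZero k] {I K : Type} [Field K] [Algebra k K] {X : I → K}
    {pd : I → Derivation ℤ K K} {deg : I → K → ℤ} {lc : I → K → K}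
    (ψ : FractionRing (MvPolynomial I k) ≃+* K)
    (hX : ∀ i, ψ (algebraMap (MvPolynomial I k) _ (MvPolynomial.X i)) = X i)
    (hC : ∀ c, ψ (algebraMap (MvPolynomial I k) _ (MvPolynomial.C c)) = algebraMap k K c)
    (hVF : VF k K I X pd deg lc) (hRS1 : StRS1) (i : I) (x : RF k I)
    (hx : ∀ y, y ≠ i → pd y (ψ x) = 0) : ∃ w : RatFunc k, io i w = x := by
  obtain ⟨P, Q, hQ, hPQ⟩ := IsFractionRing.div_surjective (A := MvPolynomial I k) x
  have hQ0 : Q ≠ 0 := nonZeroDivisors.ne_zero hQ
  have hQ' : algebraMap (MvPolynomial I k) (RF k I) Q ≠ 0 := by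
    rw [Ne, IsFractionRing.to_map_eq_zero_iff (K := RF k I)]
    exact hQ0
  have h1 : algebraMap (MvPolynomial I k) (RF k I) P = x * algebraMap (MvPolynomial I k) (RF k I) Q := by
    rw [← hPQ, div_mul_cancel₀ _ hQ']
  have h2 : ∀ y, y ≠ i → MvPolynomial.pderiv y P * Q = P * MvPolynomial.pderiv y Q := by
    intro y hy
    apply IsFractionRing.injective (MvPolynomial I k) (RF k I)
    apply ψ.injective
    rw [map_mul, map_mul, map_mul, map_mul, ← pd_poly ψ hX hC hVF, ← pd_poly ψ hX hC hVF, h1, map_mul,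
      Derivation.leibniz, hx y hy, smul_zero, add_zero, smul_eq_mul]
    ring
  obtain ⟨P0, Q0, hQ00, h3⟩ := hRS1 k I i P Q hQ0 h2
  have hQ1 : algebraMap k[X] (RatFunc k) Q0 ≠ 0 := by
    rw [Ne, IsFractionRing.to_map_eq_zero_iff (K := RatFunc k)]
    exact hQ00
  refine ⟨algebraMap k[X] (RatFunc k) P0 / algebraMap k[X] (RatFunc k) Q0, ?_⟩
  rw [map_div₀, io_poly, io_poly, ← hPQ]
  have hQ2 : algebraMap (MvPolynomial I k) (RF k I) (Polynomial.aeval (MvPolynomial.X i) Q0) ≠ 0 := by
    rw [← io_poly]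
    exact (_root_.map_ne_zero _).2 hQ1
  rw [div_eq_div_iff hQ2 hQ', ← map_mul, ← map_mul, h3]
  congr 1
  ring

theorem pUJV (h1 : StVFR) (h2 : StUMN) (h3 : StUMS) (h4 : StRS1) (h5 : StCSQ) : StUJV := by
  intro F _ _ r T hr u hu i
  obtain ⟨K, _, _, _, X, pd, deg, lc, ψ, hX, hC, hVF⟩ := h1 (RatFunc F) (Fin r ⊕ T)
  -- three indices, the first one is `i`
  obtain ⟨e, he, he0⟩ : ∃ e : Fin 3 → Fin r, Function.Injective e ∧ e 0 = i := by
    refine ⟨fun k => Equiv.swap (Fin.castLE hr 0) i (Fin.castLE hr k), ?_, ?_⟩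
    · exact (Equiv.injective _).comp (Fin.castLE_injective hr)
    · exact Equiv.swap_apply_left _ _
  set j : RatFunc F := RatFunc.X with hj
  have hψv : ∀ k, ψ (rv (RatFunc F) (Sum.inl k)) = X (Sum.inl k) := fun k => hX _
  have hψc : ∀ c, ψ (rc _ c) = algebraMap (RatFunc F) K c := fun c => hC c
  have hψg : ∀ x, ψ (gj F _ x) = ψ x ^ 3 + algebraMap (RatFunc F) K j * ψ x + algebraMap (RatFunc F) K j := by
    intro x
    unfold gj
    rw [map_add, map_add, map_mul, map_pow, hψc]
  have hdisc : 4 * j ^ 3 + 27 * j ^ 2 ≠ 0 := by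
    intro h
    have h6 : algebraMap F[X] (RatFunc F) (4 * Polynomial.X ^ 3 + 27 * Polynomial.X ^ 2) = 0 := by
      rw [map_add, map_mul, map_mul, map_pow, map_pow, RatFunc.algebraMap_X, map_ofNat, map_ofNat]
      exact h
    rw [IsFractionRing.to_map_eq_zero_iff (K := RatFunc F)] at h6
    have h7 := congrArg (fun P : F[X] => P.coeff 3) h6
    have e1 : (4 : F[X]) = Polynomial.C 4 := (map_ofNat Polynomial.C 4).symm
    have e2 : (27 : F[X]) = Polynomial.C 27 := (map_ofNat Polynomial.C 27).symm
    simp only [e1, e2, Polynomial.coeff_add, Polynomial.coeff_C_mul, Polynomial.coeff_X_pow] at h7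
    norm_num at h7
  have hS : Setup (RatFunc F) K (Fin r ⊕ T) X pd (fun _ => ∅) (fun k => Sum.inl (e k))
      (fun _ => algebraMap (RatFunc F) K j) (fun _ => algebraMap (RatFunc F) K j)
      (fun k => ψ (u (e k))) := by
    refine ⟨?_, ?_, ?_, ?_, ?_, ?_, ?_, ?_⟩
    · intro i j _ z hz
      exact absurd hz (Finset.notMem_empty z)
    · intro i j
      exact Finset.notMem_empty _
    · intro i j hij h
      exact hij (he (Sum.inl_injective h))
    · intro i z _
      exact hVF.pd_const z _
    · intro i z _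
      exact hVF.pd_const z _
    · intro k hk
      apply hdisc
      apply (algebraMap (RatFunc F) K).injective
      rw [map_zero, ← hk]
      simp only [map_add, map_mul, map_pow, map_ofNat]
    · intro k hk
      obtain ⟨l, hl⟩ : ∃ l : Fin 3, k ≠ l := by
        fin_cases k
        · exact ⟨1, by decide⟩
        · exact ⟨0, by decide⟩
        · exact ⟨0, by decide⟩
      have h6 := (hu (e k) (e l) (fun h => hl (he h))).1
      have h7 : gj F _ (u (e k)) ≠ 0 := right_ne_zero_of_mul (left_ne_zero_of_mul h6)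
      apply h7
      apply ψ.injective
      rw [map_zero, hψg]
      exact hk
    · intro k l hkl
      have h6 := (hu (e k) (e l) (fun h => hkl (he h))).2
      have h7 := h6.map ψ
      rw [map_mul, map_mul, map_mul, hψg, hψg, hψg, hψg, hψv, hψv] at h7
      exact h7
  obtain ⟨c, hc0, q, hq⟩ := h2 (RatFunc F) K (Fin r ⊕ T) X pd deg lc (fun _ => ∅) (fun k => Sum.inl (e k))
    _ _ _ hVF hS 0
  have hms := h3 (RatFunc F) K (Fin r ⊕ T) X pd deg lc (fun _ => ∅) (fun k => Sum.inl (e k))
    _ _ _ hVF hS 0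
  simp only [he0] at hq hms
  -- the product is not zero
  obtain ⟨l, hl⟩ : ∃ l : Fin r, i ≠ l := ⟨e 1, by
    rw [← he0]
    exact fun h => absurd (he h) (by decide)⟩
  have hne : gj F _ (rv (RatFunc F) (Sum.inl i)) * gj F _ (u i) ≠ 0 := left_ne_zero_of_mul (hu i l hl).1
  have hq' : rc _ c * (gj F _ (rv (RatFunc F) (Sum.inl i)) * gj F _ (u i)) = ψ.symm q * ψ.symm q := by
    apply ψ.injective
    rw [map_mul, map_mul, map_mul, RingEquiv.apply_symm_apply, hψc, hψg, hψg, hψv]
    exact hq
  have hrc : rc (Fin r ⊕ T) c ≠ 0 := by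
    rw [← io_C (Sum.inl i), _root_.map_ne_zero, _root_.map_ne_zero]
    exact hc0
  have hq0 : ψ.symm q ≠ 0 := by
    intro h
    rw [h, mul_zero] at hq'
    exact mul_ne_zero hrc hne hq'
  have hqK : q ≠ 0 := by
    intro h
    rw [h, map_zero] at hq0
    exact hq0 rfl
  have hcharK : (2 : K) ≠ 0 := two_ne_zero
  have hpq : ∀ y, y ≠ (Sum.inl i : Fin r ⊕ T) → pd y q = 0 := by
    intro y hy
    have e1 := congrArg (pd y) hq
    have e2 : pd y (ψ (u i)) = 0 := hms y (Finset.notMem_empty _) hy
    have e3 : pd y (X (Sum.inl i)) = 0 := hVF.pd_ne y _ hy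
    have e4 : ∀ a : RatFunc F, pd y (algebraMap (RatFunc F) K a) = 0 := fun a => hVF.pd_const y a
    simp only [Derivation.leibniz, map_add, Derivation.leibniz_pow, e2, e3, e4, smul_zero, add_zero] at e1
    have e5 : (2 : K) * q * pd y q = 0 := by
      rw [smul_eq_mul] at e1
      linear_combination -e1
    rcases mul_eq_zero.1 e5 with h | h
    · exact absurd h (mul_ne_zero hcharK hqK)
    · exact h
  obtain ⟨w, hw⟩ := pull ψ hX hC hVF h4 (Sum.inl i) (u i) (fun y hy => hms y (Finset.notMem_empty _) hy)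
  obtain ⟨g, hg⟩ := pull ψ hX hC hVF h4 (Sum.inl i) (ψ.symm q) (fun y hy => by
    rw [RingEquiv.apply_symm_apply]
    exact hpq y hy)
  have hwei : ∀ v : RatFunc (RatFunc F), io (Sum.inl i : Fin r ⊕ T) (wei j j v) =
      gj F _ (io (Sum.inl i) v) := by
    intro v
    unfold wei gj
    rw [map_add, map_add, map_mul, map_pow, io_C]
  have hmain : RatFunc.C c * (wei j j RatFunc.X * wei j j w) = g * g := by
    apply io_inj (Sum.inl i : Fin r ⊕ T)
    rw [map_mul, map_mul, map_mul, hwei, hwei, io_X, io_C, hw, hg]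
    exact hq'
  have hg0 : g ≠ 0 := by
    intro h
    rw [h, map_zero] at hg
    exact hq0 hg.symm
  have hCc : (RatFunc.C c : RatFunc (RatFunc F)) ≠ 0 := (_root_.map_ne_zero _).2 hc0
  obtain ⟨s, hs⟩ := h5 F c w ((RatFunc.C c)⁻¹ * g) hc0 (mul_ne_zero (inv_ne_zero hCc) hg0) (by
    have e1 : wei j j RatFunc.X * wei j j w = (RatFunc.C c)⁻¹ * (g * g) := by
      rw [← hmain, inv_mul_cancel_left₀ hCc]
    rw [← hj, e1]
    field_simp)
  have hs0 : s ≠ 0 := by
    intro h
    rw [h, mul_zero] at hs
    exact hc0 hs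
  have hrs : rc (Fin r ⊕ T) s ≠ 0 := by
    rw [← io_C (Sum.inl i), _root_.map_ne_zero, _root_.map_ne_zero]
    exact hs0
  have hrcs : rc (Fin r ⊕ T) c = rc _ s * rc _ s := by
    rw [← io_C (Sum.inl i), ← io_C (Sum.inl i), hs, map_mul, map_mul]
  refine ⟨ψ.symm q / rc _ s, ?_⟩
  rw [div_mul_div_comm, eq_div_iff (mul_ne_zero hrs hrs), ← hq', hrcs]
  ring

end Pool.Agent.Helper5.RK
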